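import Pool.Agent.Helper9.PP.Basic

/-!
Project PP (helper9): substitutions of multihomogeneous polynomials (author: helper97).
-/

set_option autoImplicit false
set_option linter.unusedSectionVars false

namespace Pool.Agent.Helper97.PP

open FF Module MvPolynomial Pool.Agent.Helper9.FJ Pool.Agent.Helper9.PP

variable {K : Type} [Field K] [Algebra ℂ K]

section CG

variable {σ τ : Type} {P : Place ℂ K}

/-- bound for the orders of the coefficients -/
def CG (P : Place ℂ K) (c : ℤ) (s : MvPolynomial σ K) : Prop := ∀ α, Ge P c (coeff α s)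

theorem CG.mono {c c' : ℤ} {s : MvPolynomial σ K} (h : CG P c s) (hc : c' ≤ c) : CG P c' s :=
  fun α => (h α).mono hc

theorem cg_zero {c : ℤ} : CG P c (0 : MvPolynomial σ K) := fun α => by
  rw [coeff_zero]; exact ge_zero

theorem CG.add {c : ℤ} {s s' : MvPolynomial σ K} (h : CG P c s) (h' : CG P c s') :
    CG P c (s + s') := fun α => by
  rw [coeff_add]; exact (h α).add (h' α)

theorem CG.sum {ι : Type*} {c : ℤ} (S : Finset ι) {s : ι → MvPolynomial σ K}
    (h : ∀ i ∈ S, CG P c (s i)) : CG P c (∑ i ∈ S, s i) := fun α => by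
  rw [coeff_sum]; exact Ge.sum _ fun i hi => h i hi α

theorem CG.mul {c c' : ℤ} {s s' : MvPolynomial σ K} (h : CG P c s) (h' : CG P c' s') :
    CG P (c + c') (s * s') := fun α => by
  classical
  rw [coeff_mul]; exact Ge.sum _ fun x _ => (h x.1).mul (h' x.2)

theorem cg_C {c : ℤ} {a : K} (h : Ge P c a) : CG P c (C a : MvPolynomial σ K) := fun α => by
  classical
  rw [coeff_C]
  split_ifs
  · exact h
  · exact ge_zero

theorem cg_X (j : σ) : CG P 0 (X j : MvPolynomial σ K) := fun α => by
  classical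
  rw [coeff_X']
  split_ifs
  · exact ge_one
  · exact ge_zero

theorem cg_one : CG P 0 (1 : MvPolynomial σ K) := by
  have := cg_C (σ := σ) (ge_one (P := P))
  rwa [map_one] at this

theorem CG.prod0 {ι : Type*} (S : Finset ι) {s : ι → MvPolynomial σ K}
    (h : ∀ i ∈ S, CG P 0 (s i)) : CG P 0 (∏ i ∈ S, s i) := by
  classical
  induction S using Finset.induction_on with
  | empty => rw [Finset.prod_empty]; exact cg_one
  | insert a S ha ih =>
    rw [Finset.prod_insert ha]
    have := (h a (Finset.mem_insert_self _ _)).mul (ih fun i hi => h i (Finset.mem_insert_of_mem hi))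
    rwa [add_zero] at this

theorem CG.prodN {N : ℕ} {c : ℤ} {s : Fin N → MvPolynomial σ K} (h : ∀ i, CG P c (s i)) :
    CG P (N * c) (∏ i, s i) := by
  induction N with
  | zero => simpa using cg_one
  | succ N ih =>
    rw [Fin.prod_univ_succ]
    refine ((h 0).mul (ih fun i => h i.succ)).mono (le_of_eq ?_)
    push_cast; ring

theorem CG.pow0 {s : MvPolynomial σ K} (h : CG P 0 s) (n : ℕ) : CG P 0 (s ^ n) := by
  induction n with
  | zero => rw [pow_zero]; exact cg_one
  | succ n ih =>
    rw [pow_succ]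
    have := ih.mul h
    rwa [add_zero] at this

theorem CG.aeval {c : ℤ} {s : MvPolynomial σ K} (h : CG P c s) {g : σ → MvPolynomial τ K}
    (hg : ∀ x, CG P 0 (g x)) : CG P c (aeval g s) := by
  rw [aeval_def, eval₂_eq]
  refine CG.sum _ fun d _ => ?_
  have h1 : CG P 0 (∏ i ∈ d.support, g i ^ d i) := CG.prod0 _ fun i _ => (hg i).pow0 _
  have h2 : CG P c (C (coeff d s) : MvPolynomial τ K) := cg_C (h d)
  have := h2.mul h1
  rwa [add_zero] at this

end CG

variable {l : ℕ} {r R Q : Fin l → ℕ}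

theorem cg_psM {P : Place ℂ K} {c : ℤ} {h : ∀ j, Matrix (Fin (r j)) (Fin (R j)) K}
    (hh : ∀ j i i', Ge P 0 (h j i i')) {s : MvPolynomial (Vr r) K} (hs : CG P c s) :
    CG P c (psM h s) := by
  refine hs.aeval fun x => CG.sum _ fun i _ => ?_
  have := (cg_C (σ := Vr R) (hh x.1 x.2 i)).mul (cg_X (P := P) (K := K) (⟨x.1, i⟩ : Vr R))
  rwa [add_zero] at this

theorem psM_X (h : ∀ j, Matrix (Fin (r j)) (Fin (R j)) K) (x : Vr r) :
    psM h (X x) = ∑ i, C (h x.1 x.2 i) * X ⟨x.1, i⟩ := by
  rw [psM, aeval_X]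

theorem psM_C (h : ∀ j, Matrix (Fin (r j)) (Fin (R j)) K) (a : K) : psM h (C a) = C a := by
  rw [psM, aeval_C]; rfl

theorem psM_comp (h : ∀ j, Matrix (Fin (r j)) (Fin (R j)) K)
    (h' : ∀ j, Matrix (Fin (R j)) (Fin (Q j)) K) (s : MvPolynomial (Vr r) K) :
    psM h' (psM h s) = psM (fun j => h j * h' j) s := by
  have : (psM h').comp (psM h) = psM (fun j => h j * h' j) := by
    refine MvPolynomial.algHom_ext fun x => ?_
    rw [AlgHom.comp_apply, psM_X, psM_X, map_sum]
    have h1 : ∀ i, psM h' (C (h x.1 x.2 i) * X ⟨x.1, i⟩) =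
        ∑ i', C (h x.1 x.2 i * h' x.1 i i') * X ⟨x.1, i'⟩ := by
      intro i
      rw [map_mul, psM_C, psM_X, Finset.mul_sum]
      refine Finset.sum_congr rfl fun i' _ => ?_
      rw [C_mul, mul_assoc]
    rw [Finset.sum_congr rfl fun i _ => h1 i, Finset.sum_comm]
    refine Finset.sum_congr rfl fun i' _ => ?_
    rw [Matrix.mul_apply, map_sum, Finset.sum_mul]
  exact DFunLike.congr_fun this s

theorem psM_one (s : MvPolynomial (Vr r) K) :
    psM (fun j => (1 : Matrix (Fin (r j)) (Fin (r j)) K)) s = s := by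
  have : psM (fun j => (1 : Matrix (Fin (r j)) (Fin (r j)) K)) = AlgHom.id K _ := by
    refine MvPolynomial.algHom_ext fun x => ?_
    rw [psM_X, AlgHom.id_apply, Finset.sum_eq_single x.2]
    · rw [Matrix.one_apply_eq, C_1, one_mul]
    · intro i _ hi
      rw [Matrix.one_apply_ne (Ne.symm hi), C_0, zero_mul]
    · intro h; exact absurd (Finset.mem_univ _) h
  rw [this]; rfl

theorem locM_eq (E : ∀ j, Bundle K (r j)) (P : Place ℂ K) (s : MvPolynomial (Vr r) K) :
    locM E P s = psM (fun j => ((E j).B P)⁻¹) s := rfl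

/-! ### multihomogeneous polynomials -/

theorem mh_zero {a : Fin l → ℕ} : IsMh a (0 : MvPolynomial (Vr r) K) := fun α h =>
  absurd (coeff_zero α) h

theorem mh_add {a : Fin l → ℕ} {s s' : MvPolynomial (Vr r) K} (h : IsMh a s) (h' : IsMh a s') :
    IsMh a (s + s') := by
  intro α hα
  rw [coeff_add] at hα
  by_cases h0 : coeff α s = 0
  · exact h' α fun h1 => hα (by rw [h0, h1, add_zero])
  · exact h α h0

theorem mh_sum {ι : Type*} {a : Fin l → ℕ} (S : Finset ι) {s : ι → MvPolynomial (Vr r) K}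
    (h : ∀ i ∈ S, IsMh a (s i)) : IsMh a (∑ i ∈ S, s i) := by
  classical
  induction S using Finset.induction_on with
  | empty => rw [Finset.sum_empty]; exact mh_zero
  | insert i S hi ih =>
    rw [Finset.sum_insert hi]
    exact mh_add (h i (Finset.mem_insert_self _ _)) (ih fun j hj => h j (Finset.mem_insert_of_mem hj))

theorem mh_mul {a b : Fin l → ℕ} {s s' : MvPolynomial (Vr r) K} (h : IsMh a s) (h' : IsMh b s') :
    IsMh (a + b) (s * s') := by
  classical
  intro α hα j
  rw [coeff_mul] at hα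
  obtain ⟨x, hx, hne⟩ := Finset.exists_ne_zero_of_sum_ne_zero hα
  rw [Finset.HasAntidiagonal.mem_antidiagonal] at hx
  have h1 := h x.1 (left_ne_zero_of_mul hne) j
  have h2 := h' x.2 (right_ne_zero_of_mul hne) j
  rw [Pi.add_apply, ← h1, ← h2, ← Finset.sum_add_distrib, ← hx]
  rfl

theorem mh_C (c : K) : IsMh (0 : Fin l → ℕ) (C c : MvPolynomial (Vr r) K) := by
  classical
  intro α hα j
  rw [coeff_C] at hα
  by_cases h : 0 = α
  · rw [← h]; simp
  · rw [if_neg h] at hα; exact absurd rfl hα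

theorem mh_Cmul {a : Fin l → ℕ} {s : MvPolynomial (Vr r) K} (h : IsMh a s) (c : K) :
    IsMh a (C c * s) := by
  have := mh_mul (mh_C (r := r) c) h
  rwa [zero_add] at this

theorem mh_X (x : Vr r) : IsMh (Pi.single x.1 1 : Fin l → ℕ) (X x : MvPolynomial (Vr r) K) := by
  classical
  intro α hα j
  rw [coeff_X'] at hα
  by_cases h : Finsupp.single x 1 = α
  · rw [← h]
    obtain ⟨j0, i0⟩ := x
    by_cases hj : j = j0
    · subst hj
      rw [Pi.single_eq_same, Finset.sum_eq_single i0]
      · rw [Finsupp.single_eq_same]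
      · intro i _ hi
        rw [Finsupp.single_eq_of_ne]
        intro h1
        exact hi (by simpa using h1)
      · intro h1; exact absurd (Finset.mem_univ _) h1
    · rw [Pi.single_eq_of_ne hj]
      refine Finset.sum_eq_zero fun i _ => ?_
      rw [Finsupp.single_eq_of_ne]
      intro h1
      exact hj (congrArg Sigma.fst h1)
  · rw [if_neg h] at hα; exact absurd rfl hα

theorem mh_pow {a : Fin l → ℕ} {s : MvPolynomial (Vr r) K} (h : IsMh a s) (n : ℕ) :
    IsMh (n • a) (s ^ n) := by
  induction n with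
  | zero =>
    rw [pow_zero, zero_smul, ← C_1]
    exact mh_C 1
  | succ n ih =>
    rw [pow_succ, succ_nsmul]
    exact mh_mul ih h

theorem mh_prod {ι : Type*} (S : Finset ι) (a : ι → Fin l → ℕ) {s : ι → MvPolynomial (Vr r) K}
    (h : ∀ i ∈ S, IsMh (a i) (s i)) : IsMh (∑ i ∈ S, a i) (∏ i ∈ S, s i) := by
  classical
  induction S using Finset.induction_on with
  | empty =>
    rw [Finset.prod_empty, Finset.sum_empty, ← C_1]
    exact mh_C 1
  | insert i S hi ih =>
    rw [Finset.sum_insert hi, Finset.prod_insert hi]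
    exact mh_mul (h i (Finset.mem_insert_self _ _)) (ih fun j hj => h j (Finset.mem_insert_of_mem hj))

theorem mh_psM {a : Fin l → ℕ} {s : MvPolynomial (Vr r) K} (hs : IsMh a s)
    (h : ∀ j, Matrix (Fin (r j)) (Fin (R j)) K) : IsMh a (psM h s) := by
  classical
  rw [psM, aeval_def, eval₂_eq]
  refine mh_sum _ fun β hβ => ?_
  have h1 : ∀ x : Vr r, IsMh (Pi.single x.1 1 : Fin l → ℕ)
      (∑ i, C (h x.1 x.2 i) * X ⟨x.1, i⟩ : MvPolynomial (Vr R) K) := fun x =>
    mh_sum _ fun i _ => mh_Cmul (mh_X (⟨x.1, i⟩ : Vr R)) _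
  have h2 := mh_prod (β.support) (fun x => β x • (Pi.single x.1 1 : Fin l → ℕ)) fun x _ =>
    mh_pow (h1 x) (β x)
  have h3 : ∑ x ∈ β.support, β x • (Pi.single x.1 1 : Fin l → ℕ) = a := by
    rw [Finset.sum_subset (Finset.subset_univ _) (fun x _ hx => by
      rw [Finsupp.notMem_support_iff.1 hx, zero_smul])]
    funext j
    rw [Finset.sum_apply, ← hs β (mem_support_iff.1 hβ) j, Fintype.sum_sigma]
    rw [Finset.sum_eq_single j]
    · refine Finset.sum_congr rfl fun i _ => ?_
      rw [Pi.smul_apply, Pi.single_eq_same, smul_eq_mul, mul_one]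
    · intro j' _ hj'
      refine Finset.sum_eq_zero fun i _ => ?_
      rw [Pi.smul_apply, Pi.single_eq_of_ne (Ne.symm hj'), smul_zero]
    · intro h4; exact absurd (Finset.mem_univ _) h4
  rw [h3] at h2
  exact mh_Cmul h2 _

end Pool.Agent.Helper97.PP
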