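import Pool.Agent.Helper9.PP.Basic
import Pool.Agent.Helper9.FJ.Num

/-!
Project PP (helper9), package MIN: quotients of minimal slope (author: helper97).
-/

set_option autoImplicit false
set_option linter.unusedSectionVars false

namespace Pool.Agent.Helper97.PP

open FF Module MvPolynomial Pool.Agent.Helper9.FJ Pool.Agent.Helper9.PP

variable {K : Type} [Field K] [Algebra ℂ K] [IsFF ℂ K] {n : ℕ}

/-- a quotient has a left inverse -/
theorem quot_left (E : Bundle K n) {ρ : ℕ} {Λ : Matrix (Fin n) (Fin ρ) K} {d : Place ℂ K →₀ ℤ}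
    (h : IsQuot E Λ d) : ∃ Y : Matrix (Fin ρ) (Fin n) K, Y * Λ = 1 := by
  obtain ⟨P, -⟩ := exists_place (k := ℂ) (K := K)
  obtain ⟨S, hS, -⟩ := (h P).2
  refine ⟨((E.B P * Λ).submatrix S id)⁻¹ * (E.B P).submatrix S id, ?_⟩
  have h1 : (E.B P).submatrix S id * Λ = (E.B P * Λ).submatrix S id := by
    ext i j
    rfl
  rw [Matrix.mul_assoc, h1, Matrix.nonsing_inv_mul _ (isUnit_iff_ne_zero.2 hS)]

/-- bound of the denominators of the inverse matrices -/
theorem exists_c (E : Bundle K n) : ∃ c : Place ℂ K →₀ ℤ, ∀ P i j, Ge P (-c P) ((E.B P)⁻¹ i j) := by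
  have hfin : (Function.support fun P : Place ℂ K => ∑ i, ∑ j, |P.ord ((E.B P)⁻¹ i j)|).Finite := by
    refine E.fin.subset fun P hP hB => hP ?_
    refine Finset.sum_eq_zero fun i _ => Finset.sum_eq_zero fun j _ => ?_
    rw [hB, inv_one, Matrix.one_apply]
    split_ifs
    · rw [P.ord_one, abs_zero]
    · rw [P.ord_zero, abs_zero]
  refine ⟨Finsupp.ofSupportFinite _ hfin, fun P i j => Or.inr ?_⟩
  show -(∑ i, ∑ j, |P.ord ((E.B P)⁻¹ i j)|) ≤ _
  have h1 : |P.ord ((E.B P)⁻¹ i j)| ≤ ∑ j, |P.ord ((E.B P)⁻¹ i j)| :=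
    Finset.single_le_sum (f := fun j => |P.ord ((E.B P)⁻¹ i j)|) (fun _ _ => abs_nonneg _)
      (Finset.mem_univ j)
  have h2 : ∑ j, |P.ord ((E.B P)⁻¹ i j)| ≤ ∑ i, ∑ j, |P.ord ((E.B P)⁻¹ i j)| :=
    Finset.single_le_sum (f := fun i => ∑ j, |P.ord ((E.B P)⁻¹ i j)|)
      (fun _ _ => Finset.sum_nonneg fun _ _ => abs_nonneg _) (Finset.mem_univ i)
  have h3 := neg_abs_le (P.ord ((E.B P)⁻¹ i j))
  linarith

/-- the degrees of the quotients are bounded below -/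
theorem lower (E : Bundle K n) {c : Place ℂ K →₀ ℤ} (hc : ∀ P i j, Ge P (-c P) ((E.B P)⁻¹ i j))
    {ρ : ℕ} {Λ : Matrix (Fin n) (Fin ρ) K} {d : Place ℂ K →₀ ℤ} (h : IsQuot E Λ d) :
    0 ≤ ddeg d + ρ * ddeg c := by
  classical
  obtain ⟨Y, hY⟩ := quot_left E h
  obtain ⟨S0, hS0⟩ : ∃ S : Fin ρ → Fin n, (Λ.submatrix S id).det ≠ 0 := by
    by_contra hcon
    push Not at hcon
    have h2 := det_mul_expand Y Λ
    rw [hY, Matrix.det_one, Finset.sum_eq_zero fun S _ => by rw [hcon S, mul_zero]] at h2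
    exact one_ne_zero h2
  have h1 : ∀ P : Place ℂ K, -(ρ * c P + d P) ≤ P.ord (Λ.submatrix S0 id).det := by
    intro P
    have h2 : Λ.submatrix S0 id = ((E.B P)⁻¹).submatrix S0 id * (E.B P * Λ) := by
      have h3 : (E.B P)⁻¹ * (E.B P * Λ) = Λ := by
        rw [← Matrix.mul_assoc, Matrix.nonsing_inv_mul _ (isUnit_iff_ne_zero.2 (E.det_ne P)),
          Matrix.one_mul]
      ext i j
      conv_lhs => rw [← h3]
      rfl
    rw [← ge_iff hS0, h2, det_mul_expand]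
    refine Ge.sum _ fun S _ => ?_
    have h3 : Ge P (∑ _i : Fin ρ, -c P) (∏ i, ((E.B P)⁻¹).submatrix S0 id i (S i)) :=
      Ge.prod _ fun i _ => hc P _ _
    have h4 := h3.mul ((h P).1 S)
    refine h4.mono (le_of_eq ?_)
    rw [Finset.sum_const, Finset.card_univ, Fintype.card_fin, nsmul_eq_mul]
    ring
  have h2 : -(ρ • c + d) ≤ divisor ℂ (Λ.submatrix S0 id).det := by
    intro P
    have := h1 P
    simpa [divisor_apply] using this
  have h3 := ddeg_mono h2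
  rw [ddeg_divisor, ddeg_neg, ddeg_add, ddeg_nsmul] at h3
  linarith

theorem min' : S_MIN := by
  intro K _ _ _ n E hn
  obtain ⟨c, hc⟩ := exists_c E
  obtain ⟨P0, -⟩ := exists_place (k := ℂ) (K := K)
  have hP0 : 0 < (P0.deg : ℤ) := by
    exact_mod_cast P0.deg_pos
  have hpos : Pos E 1 (c + Finsupp.single P0 1) := by
    refine ⟨one_pos, fun ρ Λ d hρ hd => ?_⟩
    have h1 := lower E hc hd
    have hρ' : (0 : ℤ) < ρ := by exact_mod_cast hρ
    rw [ddeg_add, ddeg_single]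
    have := mul_pos hρ' hP0
    push_cast
    nlinarith
  obtain ⟨R, Λ, d, μ, hR, hd, hμ, hmin⟩ := exists_slope hn E hpos
  obtain ⟨Y, hY⟩ := quot_left E hd
  refine ⟨R, Λ, Y, d, hR, hY, hd, fun ρ' Λ' d' hρ' hd' => ?_⟩
  have hR' : (R : ℝ) ≠ 0 := by exact_mod_cast hR.ne'
  have h1 : (ddeg d / R : ℝ) = μ := by rw [← hμ]; field_simp
  rw [h1]
  exact hmin ρ' Λ' d' hρ' hd'

end Pool.Agent.Helper97.PP
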