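import Pool.Agent.Helper97.PP.Sub
import Pool.Agent.Helper97.PP.Min
import Pool.Agent.Helper90.FJ.Ample

/-!
Project PP (helper9), package POS: ample line bundles are positive (author: helper97).
-/

set_option autoImplicit false
set_option linter.unusedSectionVars false

namespace Pool.Agent.Helper97.PP

open FF Module MvPolynomial Pool.Agent.Helper9.FJ Pool.Agent.Helper9.PP

variable {K : Type} [Field K] [Algebra ℂ K] [IsFF ℂ K] {l : ℕ} {r R : Fin l → ℕ}

/-- a form of degree zero in a group does not separate points -/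
theorem pos_degM {E : ∀ j, Bundle K (r j)} (hr : ∀ j, 2 ≤ r j) {k : Fin l → ℕ}
    {N : Place ℂ K →₀ ℤ} (h : VeryAmpleM E k N) (j0 : Fin l) : 0 < k j0 := by
  classical
  by_contra hk
  have hk0 : k j0 = 0 := by omega
  obtain ⟨P, -⟩ := exists_place (k := ℂ) (K := K)
  let e0 : ∀ j, Fin (r j) := fun j => ⟨0, by have := hr j; omega⟩
  let e1 : ∀ j, Fin (r j) := fun j => ⟨1, by have := hr j; omega⟩
  have h01 : ∀ j, e0 j ≠ e1 j := by
    intro j h
    have := congrArg Fin.val h
    simp [e0, e1] at this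
  let ξ : ∀ j, Fin (r j) → ℂ := fun j => Pi.single (e0 j) 1
  let η : ∀ j, Fin (r j) → ℂ := fun j => if j = j0 then Pi.single (e1 j) 1 else Pi.single (e0 j) 1
  have hξ : ∀ j, ξ j ≠ 0 := by
    intro j h
    have := congrFun h (e0 j)
    simp [ξ] at this
  have hη : ∀ j, η j ≠ 0 := by
    intro j h
    by_cases hj : j = j0
    · have := congrFun h (e1 j)
      simp [η, hj] at this
    · have := congrFun h (e0 j)
      simp [η, hj] at this
  obtain ⟨s, hs, h1, h2⟩ := h.2.1 P P ξ η hξ hη (by
    rintro -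
    refine ⟨j0, ?_⟩
    rintro ⟨c, hc⟩
    have := congrFun hc (e1 j0)
    simp only [η, ξ, if_true, Pi.smul_apply, Pi.single_eq_same,
      Pi.single_eq_of_ne (h01 j0).symm, smul_zero] at this
    exact one_ne_zero this)
  apply h2
  have h3 : eval (ptM E P η) s = eval (ptM E P ξ) s := by
    rw [eval_eq, eval_eq]
    refine Finset.sum_congr rfl fun α hα => ?_
    congr 1
    refine Finset.prod_congr rfl fun x hx => ?_
    have hx1 : x.1 ≠ j0 := by
      intro hx1
      have h4 := hs.1 α (mem_support_iff.1 hα) x.1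
      rw [hx1, hk0] at h4
      have h5 : α ⟨x.1, x.2⟩ ≤ ∑ i, α ⟨x.1, i⟩ :=
        Finset.single_le_sum (f := fun i => α ⟨x.1, i⟩) (fun _ _ => Nat.zero_le _)
          (Finset.mem_univ x.2)
      have h6 : ∑ i, α ⟨x.1, i⟩ = 0 := by
        rw [hs.1 α (mem_support_iff.1 hα) x.1, hx1, hk0]
      have h7 : α x ≠ 0 := Finsupp.mem_support_iff.1 hx
      apply h7
      have : α ⟨x.1, x.2⟩ = 0 := by omega
      exact this
    have h4 : η x.1 = ξ x.1 := by
      change (if x.1 = j0 then _ else _) = _
      rw [if_neg hx1]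
    rw [ptM, ptM, h4]
  rw [h3]
  exact h1

/-- spans over `ℂ` of products of sections -/
theorem span_bound {P : Place ℂ K} {c : ℤ} {S : Set (MvPolynomial (Vr R) K)}
    (hS : ∀ g ∈ S, CG P c g) {f : MvPolynomial (Vr R) K} (hf : f ∈ Submodule.span ℂ S) :
    CG P c f := by
  induction hf using Submodule.span_induction with
  | mem x hx => exact hS x hx
  | zero => exact cg_zero
  | add x y _ _ hx hy => exact hx.add hy
  | smul z x _ hx =>
    intro α
    rw [coeff_smul, Algebra.smul_def]
    have := (ge_const (P := P) z).mul (hx α)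
    rwa [zero_add] at this

theorem pos' (hMin : S_MIN) (hSec : S_SEC) (hGrow : S_GROW) (hJets : S_JETS) : S_POS := by
  classical
  intro K _ _ _ l r E hr
  have hr0 : ∀ j, 0 < r j := fun j => by have := hr j; omega
  choose R Λ Y d hR hY hQ hSL using fun j => hMin (E j) (hr0 j)
  refine ⟨fun j => (ddeg (d j) / R j : ℝ), hSL, fun a b hA => ?_⟩
  obtain ⟨M', hM', hVA⟩ := hA
  have hdeg := pos_degM hr hVA
  refine ⟨fun j => ?_, ?_⟩
  · have := hdeg j
    rw [Pi.smul_apply, smul_eq_mul] at this
    exact Nat.pos_of_mul_pos_left this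
  set k : Fin l → ℕ := M' • a with hk
  set N : Place ℂ K →₀ ℤ := M' • b with hN
  -- the local bases
  choose hQ1 S hS1 hS2 using fun (P : Place ℂ K) j => hQ j P
  let g : ∀ (P : Place ℂ K) j, Matrix (Fin (R j)) (Fin (R j)) K := fun P j =>
    ((E j).B P * Λ j).submatrix (S P j) id
  have hg : ∀ P j, (g P j).det ≠ 0 := hS1
  let Cm : ∀ (P : Place ℂ K) j, Matrix (Fin (r j)) (Fin (R j)) K := fun P j =>
    (E j).B P * Λ j * (g P j)⁻¹
  have hCreg : ∀ P j m i, Ge P 0 (Cm P j m i) := fun P j m i =>
    Pool.Agent.Helper90.FJ.coord_reg ((E j).B P * Λ j) (S P j) (hQ1 P j) (hS2 P j) m i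
  -- sections in the local bases
  have hsec : ∀ (P : Place ℂ K) (s : MvPolynomial (Vr r) K), IsSecM E k N s →
      CG P (-N P) (psM (fun j => Λ j * (g P j)⁻¹) s) := by
    intro P s hs
    have h1 : psM (fun j => Λ j * (g P j)⁻¹) s = psM (Cm P) (locM E P s) := by
      have h2 : (fun j => Λ j * (g P j)⁻¹) = fun j => ((E j).B P)⁻¹ * Cm P j := by
        funext j
        change Λ j * (g P j)⁻¹ = ((E j).B P)⁻¹ * ((E j).B P * Λ j * (g P j)⁻¹)
        rw [Matrix.mul_assoc, ← Matrix.mul_assoc ((E j).B P)⁻¹,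
          Matrix.nonsing_inv_mul _ (isUnit_iff_ne_zero.2 ((E j).det_ne P)), Matrix.one_mul]
      rw [h2, locM_eq, psM_comp]
    rw [h1]
    exact cg_psM (hCreg P) (hs.2 P)
  obtain ⟨P0, -⟩ := exists_place (k := ℂ) (K := K)
  obtain ⟨t, ht0', ht⟩ := P0.surj
  have ht0 : t ≠ 0 := by rintro rfl; rw [P0.ord_zero] at ht; omega
  obtain ⟨s0, s, hs0, hs, hjet⟩ := hJets E hR Λ P0 t (fun j => d j P0) ht
    (fun j S' => hQ1 P0 j S') (S P0) (fun j => ⟨hS1 P0 j, hS2 P0 j⟩) k N hVA
  set G : ∀ j, Matrix (Fin (r j)) (Fin (R j)) K := fun j => Λ j * (g P0 j)⁻¹ with hG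
  set v0 : MvPolynomial (Vr R) K := C (t ^ N P0) * psM G s0 with hv0
  set v : Option (Fr R) → MvPolynomial (Vr R) K := fun i => C (t ^ N P0) * psM G (s i) with hv
  have hint : ∀ s', IsSecM E k N s' → CG P0 0 (C (t ^ N P0) * psM G s') := by
    intro s' hs'
    have h1 : CG P0 (N P0) (C (t ^ N P0) : MvPolynomial (Vr R) K) :=
      cg_C (Or.inr (by rw [P0.ord_zpow, ht]; simp))
    have := h1.mul (hsec P0 s' hs')
    rwa [add_neg_cancel] at this
  obtain ⟨M, hM, f, hf0, hfh, hf1, hfs⟩ := hGrow hR P0 t ht k v0 v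
    (mh_Cmul (mh_psM hs0.1 _) _) (fun i => mh_Cmul (mh_psM (hs i).1 _) _)
    (hint s0 hs0) (fun i => hint _ (hs i)) hjet
  -- the form
  set F : MvPolynomial (Vr R) K := C (t ^ (-(M * N P0))) * psM (g P0) f with hF
  have hback : psM (fun j => (g P0 j)⁻¹) F = C (t ^ (-(M * N P0))) * f := by
    rw [hF, map_mul, psM_C, psM_comp]
    have : (fun j => g P0 j * (g P0 j)⁻¹) = fun j => (1 : Matrix (Fin (R j)) (Fin (R j)) K) := by
      funext j
      exact Matrix.mul_nonsing_inv _ (isUnit_iff_ne_zero.2 (hg P0 j))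
    rw [this, psM_one]
  have hF0 : F ≠ 0 := by
    intro h0
    rw [h0, map_zero] at hback
    have h1 : (C (t ^ (-(M * N P0))) : MvPolynomial (Vr R) K) ≠ 0 := by
      rw [Ne, C_eq_zero]
      exact zpow_ne_zero _ ht0
    exact (mul_ne_zero h1 hf0) hback.symm
  have hFh : IsMh (M • k) F := mh_Cmul (mh_psM hfh _) _
  -- products of sections
  have hspan : F ∈ Submodule.span ℂ {G' : MvPolynomial (Vr R) K | ∃ w : Fin M → Option (Option (Fr R)),
      G' = ∏ i, psM Λ ((w i).elim s0 s)} := by
    have h1 : ∀ x ∈ Submodule.span ℂ {G' : MvPolynomial (Vr R) K | ∃ w : Fin M → Option (Option (Fr R)),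
        G' = ∏ i, (w i).elim v0 v}, C (t ^ (-(M * N P0))) * psM (g P0) x ∈
        Submodule.span ℂ {G' : MvPolynomial (Vr R) K | ∃ w : Fin M → Option (Option (Fr R)),
          G' = ∏ i, psM Λ ((w i).elim s0 s)} := by
      intro x hx
      induction hx using Submodule.span_induction with
      | mem x hx =>
        obtain ⟨w, rfl⟩ := hx
        refine Submodule.subset_span ⟨w, ?_⟩
        have h2 : ∀ i, psM (g P0) ((w i).elim v0 v) =
            C (t ^ N P0) * psM Λ ((w i).elim s0 s) := by
          intro i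
          have h3 : (w i).elim v0 v = C (t ^ N P0) * psM G ((w i).elim s0 s) := by
            cases w i with
            | none => rfl
            | some y => rfl
          rw [h3, map_mul, psM_C, psM_comp]
          have h4 : (fun j => G j * g P0 j) = Λ := by
            funext j
            change Λ j * (g P0 j)⁻¹ * g P0 j = Λ j
            rw [Matrix.mul_assoc, Matrix.nonsing_inv_mul _ (isUnit_iff_ne_zero.2 (hg P0 j)),
              Matrix.mul_one]
          rw [h4]
        rw [map_prod, Finset.prod_congr rfl fun i _ => h2 i, Finset.prod_mul_distrib,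
          Finset.prod_const, Finset.card_univ, Fintype.card_fin, ← mul_assoc, ← C_pow, ← C_mul]
        have h5 : t ^ (-(M * N P0)) * (t ^ N P0) ^ M = 1 := by
          rw [← zpow_natCast, ← zpow_mul, ← zpow_add₀ ht0]
          have : -(M * N P0) + N P0 * (M : ℤ) = 0 := by ring
          rw [this, zpow_zero]
        rw [h5, C_1, one_mul]
      | zero => rw [map_zero, mul_zero]; exact Submodule.zero_mem _
      | add x y _ _ hx hy => rw [map_add, mul_add]; exact Submodule.add_mem _ hx hy
      | smul z x _ hx =>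
        have h2 : C (t ^ (-(M * N P0))) * psM (g P0) (z • x) =
            z • (C (t ^ (-(M * N P0))) * psM (g P0) x) := by
          rw [← IsScalarTower.algebraMap_smul K z x, map_smul, IsScalarTower.algebraMap_smul,
            mul_smul_comm]
        rw [h2]
        exact Submodule.smul_mem _ _ hx
    exact h1 f hfs
  have key := hSec E (fun j => (ddeg (d j) / R j : ℝ)) hr0 hR hSL Λ Y d hY hQ
    (fun j => by
      have : (R j : ℝ) ≠ 0 := by exact_mod_cast (hR j).ne'
      field_simp) S (fun P j => ⟨hS1 P j, hS2 P j⟩) (M • k) (M • N - Finsupp.single P0 1) F hFh hF0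
    (by
      intro P
      change CG P _ (psM (fun j => (g P j)⁻¹) F)
      by_cases hP : P = P0
      · subst hP
        rw [hback]
        have h1 : CG P (-(M * N P)) (C (t ^ (-(M * N P))) : MvPolynomial (Vr R) K) :=
          cg_C (Or.inr (by rw [P.ord_zpow, ht]; simp))
        have h2 : CG P 1 f := hf1
        refine (h1.mul h2).mono (le_of_eq ?_)
        rw [Finsupp.sub_apply, Finsupp.single_eq_same, Finsupp.smul_apply, nsmul_eq_mul]
        ring
      · have h1 : -((M • N - Finsupp.single P0 1 : Place ℂ K →₀ ℤ) P) = M * (-N P) := by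
          rw [Finsupp.sub_apply, Finsupp.single_eq_of_ne hP, Finsupp.smul_apply, nsmul_eq_mul]
          ring
        rw [h1]
        have h2 : ∀ x ∈ Submodule.span ℂ {G' : MvPolynomial (Vr R) K |
            ∃ w : Fin M → Option (Option (Fr R)), G' = ∏ i, psM Λ ((w i).elim s0 s)},
            CG P (M * (-N P)) (psM (fun j => (g P j)⁻¹) x) := by
          intro x hx
          induction hx using Submodule.span_induction with
          | mem x hx =>
            obtain ⟨w, rfl⟩ := hx
            rw [map_prod]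
            refine CG.prodN fun i => ?_
            rw [psM_comp]
            refine hsec P _ ?_
            cases w i with
            | none => exact hs0
            | some y => exact hs y
          | zero => rw [map_zero]; exact cg_zero
          | add x y _ _ hx hy => rw [map_add]; exact hx.add hy
          | smul z x _ hx =>
            rw [← IsScalarTower.algebraMap_smul K z x, map_smul]
            intro α
            rw [coeff_smul, smul_eq_mul]
            have := (ge_const (P := P) z).mul (hx α)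
            rwa [zero_add] at this
        exact h2 F hspan)
  rw [ddeg_sub, ddeg_single, ddeg_nsmul, hN, ddeg_nsmul] at key
  have hP0 : (0 : ℝ) < (P0.deg : ℝ) := by exact_mod_cast P0.deg_pos
  have hMr : (0 : ℝ) < M := by exact_mod_cast hM
  have hMr' : (0 : ℝ) < M' := by exact_mod_cast hM'
  have h1 : ∑ j, (((M • k) j : ℕ) : ℝ) * (ddeg (d j) / R j : ℝ) =
      M * M' * ∑ j, (a j : ℝ) * (ddeg (d j) / R j : ℝ) := by
    rw [Finset.mul_sum]
    refine Finset.sum_congr rfl fun j _ => ?_
    rw [hk, Pi.smul_apply, Pi.smul_apply, smul_eq_mul, smul_eq_mul]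
    push_cast
    ring
  rw [h1] at key
  push_cast at key
  have h2 : (0 : ℝ) < M * M' * (∑ j, (a j : ℝ) * (ddeg (d j) / R j : ℝ) + ddeg b) := by
    have h3 : (M : ℝ) * M' * (∑ j, (a j : ℝ) * (ddeg (d j) / R j : ℝ) + ddeg b) =
      M * M' * ∑ j, (a j : ℝ) * (ddeg (d j) / R j : ℝ) + M * (M' * ddeg b) := by ring
    rw [h3]
    linarith
  exact (mul_pos_iff_of_pos_left (mul_pos hMr hMr')).1 h2

end Pool.Agent.Helper97.PP
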